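import Mathlib

namespace Pool.Agent.H.MP_32607b_nt

open Finset Polynomial

variable {p : ℕ} [hp : Fact p.Prime]

noncomputable def ch (p : ℕ) [Fact p.Prime] (z : ℤ) (j : ℕ) : ℤ_[p] := ((Ring.choose z j : ℤ) : ℤ_[p])

lemma ch_succ (z : ℤ) (j : ℕ) : ((j : ℤ_[p]) + 1) * ch p z (j + 1) = ch p z j * (z - j) := by
  have := Ring.choose_smul_choose z (Nat.le_succ j)
  rw [Nat.succ_eq_add_one, Nat.add_sub_cancel_left, Nat.choose_succ_self_right, nsmul_eq_mul,
    Ring.choose_one_right] at this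
  unfold ch
  exact_mod_cast congrArg (Int.cast : ℤ → ℤ_[p]) this

lemma ch_nat (n j : ℕ) : ch p n j = n.choose j := by simp [ch, Ring.choose_natCast]

lemma ch_add (z w : ℤ) (r : ℕ) :
    ch p (z + w) r = ∑ x ∈ antidiagonal r, ch p z x.1 * ch p w x.2 := by
  simp [ch, Ring.add_choose_eq r (Commute.all z w)]

lemma ch_neg (z : ℤ) {r : ℕ} (hr : Odd r) : ch p (-z) r = -ch p (z + r - 1) r := by
  simp [ch, Ring.choose_neg, Int.negOnePow_odd _ (Odd.natCast hr)]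

lemma ch_sum (w : ℤ) (r k : ℕ) :
    ∑ h ∈ range k, ch p (h + w) r = ch p (k + w) (r + 1) - ch p w (r + 1) := by
  induction k with
  | zero => simp
  | succ k ih =>
    rw [sum_range_succ, ih, show ((k + 1 : ℕ) : ℤ) + w = k + w + 1 by push_cast; ring]
    simp only [ch, Ring.choose_succ_succ]; push_cast; ring

lemma unit_of {u : ℕ} (h : ¬ p ∣ u) : IsUnit (u : ℤ_[p]) :=
  PadicInt.isUnit_iff.2 (PadicInt.norm_natCast_eq_one_iff.2 (hp.out.coprime_iff_not_dvd.2 h))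

lemma exc {t j : ℕ} (h0 : j ≠ 0) (h : j < p ^ (t + 1)) :
    ∃ c : ℤ_[p], j * c = p ^ t ∧ (j < p ^ t → (p : ℤ_[p]) ∣ c) := by
  obtain ⟨e, u, hu, rfl⟩ := Nat.exists_eq_pow_mul_and_not_dvd h0 p hp.out.ne_one
  obtain ⟨v, hv⟩ := (unit_of hu).exists_right_inv
  have u0 : 0 < u := Nat.pos_of_ne_zero (by rintro rfl; simp at hu)
  have k : ∀ t, p ^ e * u < p ^ t → e < t := fun t h =>
    (Nat.pow_lt_pow_iff_right hp.out.one_lt).1 (lt_of_le_of_lt (Nat.le_mul_of_pos_right _ u0) h)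
  obtain ⟨d, rfl⟩ := Nat.exists_eq_add_of_le (Nat.lt_succ_iff.1 (k _ h))
  refine ⟨p ^ d * v, by push_cast; linear_combination (p ^ e * p ^ d : ℤ_[p]) * hv, fun h => ?_⟩
  exact (dvd_pow_self _ (by have := k _ h; omega)).mul_right _

lemma exQ (t j : ℕ) (h : j + 1 < p ^ (t + 1)) : ∃ Q : ℤ_[p][X],
    (∀ x : ℤ, ((j : ℤ_[p]) + 1) * ch p (p ^ t * x) (j + 1) = p ^ t * x * Q.eval (x : ℤ_[p])) ∧
    Q.natDegree ≤ j ∧ (j + 1 ≤ p ^ t → C (p : ℤ_[p]) ∣ Q - (-1) ^ j) := by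
  induction j with
  | zero => exact ⟨1, fun x => by simp [ch], by simp, by simp⟩
  | succ j ih =>
    obtain ⟨Q, h1, h2, h3⟩ := ih (by omega)
    obtain ⟨c, c1, c2⟩ := exc (p := p) (t := t) (j := j + 1) (by omega) (by omega)
    push_cast at c1
    refine ⟨Q * (C c * X - 1), fun x => ?_, ?_, fun k => ?_⟩
    · have e : ch p (p ^ t * x) (j + 1) = c * x * Q.eval (x : ℤ_[p]) :=
        mul_left_cancel₀ (Nat.cast_add_one_ne_zero j) (by rw [h1, ← c1]; ring)
      rw [ch_succ, e]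
      simp only [eval_mul, eval_sub, eval_C, eval_X, eval_one]
      push_cast; rw [← c1]; ring
    · refine natDegree_mul_le.trans (add_le_add h2 ?_)
      compute_degree
    · obtain ⟨d, rfl⟩ := c2 (by omega)
      obtain ⟨e, he⟩ := h3 (by omega)
      exact ⟨Q * C d * X - e, by rw [C_mul]; linear_combination -he⟩

lemma exB (t j : ℕ) (h : j < p ^ (t + 1)) : ∃ B : ℤ_[p][X],
    (∀ x : ℤ, ch p (p ^ t * x) j = B.eval (x : ℤ_[p])) ∧ B.natDegree ≤ j ∧
    (j ≠ 0 → j < p ^ t → C (p : ℤ_[p]) ∣ B) ∧ (Odd j → j = p ^ t → C (p : ℤ_[p]) ∣ B - X) := by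
  rcases j with _ | j
  · exact ⟨1, fun x => by simp [ch], by simp, by simp, by simp⟩
  obtain ⟨Q, h1, h2, h3⟩ := exQ t j h
  obtain ⟨c, c1, c2⟩ := exc (p := p) (t := t) (j := j + 1) (by omega) (by omega)
  push_cast at c1
  refine ⟨C c * X * Q, fun x => ?_, ?_, fun _ k => ?_, fun o k => ?_⟩
  · exact mul_left_cancel₀ (Nat.cast_add_one_ne_zero j) (by rw [h1, ← c1]; simp; ring)
  · refine natDegree_mul_le.trans ?_
    have : (C c * X).natDegree ≤ 1 := by compute_degree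
    omega
  · exact ((map_dvd C (c2 k)).mul_right _).mul_right _
  · have : c = 1 := mul_left_cancel₀ (Nat.cast_add_one_ne_zero j) (by
      rw [c1, mul_one]; exact_mod_cast k.symm)
    obtain ⟨e, he⟩ := h3 k.le
    rw [Even.neg_one_pow (by simpa [parity_simps] using o)] at he
    exact ⟨X * e, by rw [this, C_1]; linear_combination X * he⟩

lemma exA (t r : ℕ) (h : r < p ^ (t + 1)) (z : ℕ) : ∃ A : ℤ_[p][X],
    (∀ x : ℤ, ch p (z + p ^ t * x) r = A.eval (x : ℤ_[p])) ∧ A.natDegree ≤ r ∧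
    (Odd r → r = p ^ t → z < r → C (p : ℤ_[p]) ∣ A - X) := by
  choose! B h1 h2 h3 h4 using exB (p := p) t
  refine ⟨∑ x ∈ antidiagonal r, C (ch p z x.1) * B x.2, fun x => ?_, ?_, fun o e l => ?_⟩
  · rw [ch_add, eval_finset_sum]
    exact sum_congr rfl fun y hy => by
      rw [h1 _ (by have := mem_antidiagonal.1 hy; omega)]; simp
  · exact natDegree_sum_le_of_forall_le _ _ fun y hy => by
      have := mem_antidiagonal.1 hy
      exact (natDegree_C_mul_le _ _).trans ((h2 _ (by omega)).trans (by omega))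
  · rw [← add_sum_erase _ _ (show (0, r) ∈ antidiagonal r by simp), add_sub_right_comm]
    refine dvd_add (by simpa [ch] using h4 r h o e) (dvd_sum fun y hy => ?_)
    obtain ⟨n, hy⟩ := mem_erase.1 hy
    have := mem_antidiagonal.1 hy
    by_cases c : y.2 = 0
    · rw [ch_nat, Nat.choose_eq_zero_of_lt (by omega)]; simp
    · exact (h3 _ (by omega) c (by
        have : y.1 ≠ 0 := fun k => n (Prod.ext k (by simp only; omega))
        omega)).mul_left _

lemma sum_rm {M : Type*} [AddCommMonoid M] (f : ℕ → M) (y k : ℕ) :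
    ∑ x ∈ range (y * k), f x = ∑ i ∈ range k, ∑ x ∈ range y, f (x + y * i) := by
  induction k with
  | zero => simp
  | succ k ih => rw [mul_add_one, sum_range_add, ih, sum_range_succ]; simp only [add_comm]

lemma sum_blk (P : ℤ_[p][X]) (y k : ℕ) : ∃ K, ∑ x ∈ range (y * k), P.eval (x : ℤ_[p]) =
    k * ∑ x ∈ range y, P.eval (x : ℤ_[p]) + (∑ i ∈ range k, i : ℕ) * y *
      ∑ x ∈ range y, P.derivative.eval (x : ℤ_[p]) + y ^ 2 * K := by
  refine ⟨∑ i ∈ range k, ∑ x ∈ range y, (P.binomExpansion x (y * i)).1 * i ^ 2, ?_⟩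
  rw [sum_rm]
  push_cast
  simp only [fun (x i : ℕ) => (P.binomExpansion x (y * i)).2, sum_add_distrib, sum_const,
    card_range, nsmul_eq_mul, sum_mul, mul_sum]
  congr 1
  · congr 1; rw [sum_comm]; exact sum_congr rfl fun _ _ => sum_congr rfl fun _ _ => by ring
  · exact sum_congr rfl fun _ _ => sum_congr rfl fun _ _ => by ring

lemma sum1 (P : ℤ_[p][X]) (b : ℕ) : ∀ y : ℕ, p ^ b ∣ y →
    (p : ℤ_[p]) ^ b ∣ p * ∑ x ∈ range y, P.eval (x : ℤ_[p]) := by
  induction b with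
  | zero => simp
  | succ b ih =>
    rintro _ ⟨u, rfl⟩
    obtain ⟨K, hK⟩ := sum_blk P (p ^ b * u) p
    rw [show p ^ (b + 1) * u = p ^ b * u * p by ring, hK, pow_succ']
    refine mul_dvd_mul_left _ (dvd_add (dvd_add (ih _ (Dvd.intro _ rfl)) ?_) ?_) <;> push_cast
    · exact (((dvd_refl _).mul_right _).mul_left _).mul_right _
    · exact Dvd.intro (p ^ b * u ^ 2 * K) (by ring)

lemma sum2 (h2 : p ≠ 2) (P : ℤ_[p][X]) (h : (p : ℤ_[p]) ∣ ∑ x ∈ range p, P.eval (x : ℤ_[p]))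
    (b : ℕ) : ∀ y : ℕ, p ^ (b + 1) ∣ y →
    (p : ℤ_[p]) ^ (b + 1) ∣ ∑ x ∈ range y, P.eval (x : ℤ_[p]) := by
  induction b with
  | zero =>
    rintro _ ⟨u, rfl⟩
    obtain ⟨K, hK⟩ := sum_blk P p u
    rw [zero_add, pow_one, pow_one, hK]
    exact dvd_add (dvd_add (h.mul_left _) (((dvd_refl _).mul_left _).mul_right _))
      ((dvd_pow_self _ two_ne_zero).mul_right _)
  | succ b ih =>
    rintro _ ⟨u, rfl⟩
    obtain ⟨K, hK⟩ := sum_blk P (p ^ (b + 1) * u) p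
    obtain ⟨v, hv⟩ : p ∣ ∑ i ∈ range p, i := ((Nat.coprime_primes hp.out Nat.prime_two).2
      h2).dvd_of_dvd_mul_right (by rw [sum_range_id_mul_two]; exact Dvd.intro _ rfl)
    rw [show p ^ (b + 1 + 1) * u = p ^ (b + 1) * u * p by ring, hK, hv, pow_succ' _ (b + 1)]
    refine dvd_add (dvd_add (mul_dvd_mul_left _ (ih _ (Dvd.intro _ rfl))) ?_) ?_ <;> push_cast
    · exact Dvd.dvd.mul_right (Dvd.intro ((v : ℤ_[p]) * u) (by ring)) _
    · exact Dvd.intro (p ^ b * u ^ 2 * K) (by ring)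

lemma powsum {e : ℕ} (h : e < p - 1) : (p : ℤ_[p]) ∣ ∑ x ∈ range p, (x : ℤ_[p]) ^ e := by
  have : p ∣ ∑ x ∈ range p, x ^ e := by
    rw [← ZMod.natCast_eq_zero_iff]
    push_cast
    rw [← FiniteField.sum_pow_lt_card_sub_one (K := ZMod p) e (by rwa [ZMod.card])]
    exact sum_nbij' (fun x => (x : ZMod p)) ZMod.val (by simp) (by simp [ZMod.val_lt])
      (fun x hx => ZMod.val_cast_of_lt (by simpa using hx)) (by simp) (by simp)
  exact_mod_cast (Nat.cast_dvd_cast this : (p : ℤ_[p]) ∣ _)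

lemma polsum {P : ℤ_[p][X]} (h : P.natDegree < p - 1) :
    (p : ℤ_[p]) ∣ ∑ x ∈ range p, P.eval (x : ℤ_[p]) := by
  simp only [eval_eq_sum_range]
  rw [sum_comm]
  exact dvd_sum fun i hi => by
    rw [← mul_sum]; exact (powsum (by have := mem_range.1 hi; omega)).mul_left _

end Pool.Agent.H.MP_32607b_nt
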