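import Mathlib
import Pool.Agent.H.MP_32607b_nt.A

namespace Pool.Agent.H.MP_32607b_nt

open Finset Polynomial

variable {p : ℕ} [hp : Fact p.Prime]

noncomputable def G (p : ℕ) [Fact p.Prime] (r s n : ℕ) : ℤ_[p] := ∑ h ∈ range n, ch p h r ^ s

lemma shift {q r s : ℕ} {A : ℕ → ℤ_[p][X]}
    (hA : ∀ (z : ℕ) (x : ℤ), ch p (z + q * x) r = (A z).eval (x : ℤ_[p])) (y : ℕ) (w : ℤ) :
    ∑ h ∈ range (q * y), ch p (h + q * w) r ^ s =
      ∑ x ∈ range y, (∑ z ∈ range q, A z ^ s).eval ((x : ℤ_[p]) + w) := by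
  rw [sum_rm (fun h => ch p (h + q * w) r ^ s)]
  refine sum_congr rfl fun x _ => ?_
  rw [eval_finset_sum]
  refine sum_congr rfl fun z _ => ?_
  have := hA z (x + w)
  push_cast at this ⊢
  rw [eval_pow, ← this]; congr 2; ring

lemma main {q r s : ℕ} (hr : Odd r) (hs : Odd s) (s3 : 3 ≤ s) {A : ℕ → ℤ_[p][X]}
    (hA : ∀ (z : ℕ) (x : ℤ), ch p (z + q * x) r = (A z).eval (x : ℤ_[p])) {π : ℤ_[p]}
    {Γ : ℤ_[p][X]} (hΓ : ∑ z ∈ range q, A z ^ s = C π * Γ) (y : ℕ) : ∃ K K',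
    2 * G p r s (q * y) = π * (y * ∑ x ∈ range y, Γ.derivative.eval (x : ℤ_[p]) + y ^ 2 * K) +
      y ^ 3 * K' := by
  have e1 := shift (s := s) hA y 0
  have e2 := shift (s := s) hA y (-y)
  have e3 : ∑ h ∈ range (q * y), ch p (h + q * (-y : ℤ)) r ^ s =
      -∑ h ∈ range (q * y), ch p (r + h : ℕ) r ^ s := by
    rw [← sum_range_reflect, ← sum_neg_distrib]
    refine sum_congr rfl fun h hh => ?_
    have := mem_range.1 hh
    rw [← hs.neg_pow, show ((r + h : ℕ) : ℤ) = (h + 1) + r - 1 by push_cast; ring, ← ch_neg _ hr]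
    congr 2
    rw [Nat.sub_sub, Nat.cast_sub (by omega)]; push_cast; ring
  have e4 := sum_range_add (fun h : ℕ => ch p h r ^ s) r (q * y)
  have e5 : ∑ h ∈ range r, ch p h r ^ s = 0 := sum_eq_zero fun h hh => by
    rw [ch_nat, Nat.choose_eq_zero_of_lt (mem_range.1 hh), Nat.cast_zero, zero_pow (by omega)]
  rw [add_comm r, sum_range_add, e5] at e4
  obtain ⟨K', hK⟩ : (y : ℤ_[p]) ^ 3 ∣ ∑ h ∈ range r, ch p (q * y + h : ℕ) r ^ s :=
    dvd_sum fun h hh => by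
      have a := (A h).sub_dvd_eval_sub (y : ℤ_[p]) 0
      have b := hA h 0
      have c := hA h y
      rw [mul_zero, add_zero, ch_nat, Nat.choose_eq_zero_of_lt (mem_range.1 hh)] at b
      push_cast at b c ⊢
      rw [← b, ← c, sub_zero, sub_zero, add_comm] at a
      exact (pow_dvd_pow_of_dvd a 3).trans (pow_dvd_pow _ s3)
  refine ⟨-∑ x ∈ range y, (Γ.binomExpansion x (-y)).1, -K', ?_⟩
  rw [hΓ] at e1 e2
  push_cast at e1 e2
  simp only [eval_mul, eval_C, fun (x : ℕ) => (Γ.binomExpansion x (-y)).2, mul_zero, add_zero,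
    sum_add_distrib, ← mul_sum, ← sum_mul] at e1 e2
  unfold G
  push_cast at e3 e4 hK
  linear_combination e1 - e2 + e3 + e4 - hK

lemma two_dvd (h2 : p ≠ 2) {a b : ℤ_[p]} (h : a ∣ 2 * b) : a ∣ b :=
  (unit_of (p := p) (u := 2) (fun k => h2 ((Nat.prime_dvd_prime_iff_eq hp.out
    Nat.prime_two).1 k))).dvd_mul_left.1 (by exact_mod_cast h)

lemma caseA {t r s b : ℕ} (hr : Odd r) (hs : Odd s) (s3 : 3 ≤ s) (h : r < p ^ (t + 1)) {y : ℕ}
    (hy : p ^ b ∣ y) : (p : ℤ_[p]) ^ (2 * b) ∣ p * (2 * G p r s (p ^ t * y)) := by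
  choose A h1 h2 h3 using exA (p := p) t r h
  obtain ⟨K, K', e⟩ := main (q := p ^ t) hr hs s3 (π := 1) (by simpa using h1)
    (by rw [C_1, one_mul]) y
  obtain ⟨c, hc⟩ := sum1 (derivative (∑ z ∈ range (p ^ t), A z ^ s)) b y hy
  obtain ⟨u, rfl⟩ := hy
  refine ⟨u * c + p * u ^ 2 * K + p * p ^ b * u ^ 3 * K', ?_⟩
  rw [e]; push_cast at hc ⊢
  linear_combination (p ^ b * u : ℤ_[p]) * hc

lemma caseB {r s b : ℕ} (hr : Odd r) (hs : Odd s) (s3 : 3 ≤ s) (h : r * s + 1 < p) {y : ℕ}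
    (hy : p ^ (b + 1) ∣ y) : (p : ℤ_[p]) ^ (2 * (b + 1)) ∣ G p r s y := by
  have r0 := hr.pos
  have h2 : p ≠ 2 := by rintro rfl; nlinarith
  choose A h1 h2' h3 using exA (p := p) 0 r (by rw [zero_add, pow_one]; nlinarith)
  obtain ⟨K, K', e⟩ := main (q := 1) hr hs s3 (π := 1) (Γ := A 0 ^ s) (by simpa using h1)
    (by simp) y
  obtain ⟨c, hc⟩ := sum2 h2 (derivative (A 0 ^ s)) (polsum (by
    have := natDegree_derivative_le (A 0 ^ s)
    have := natDegree_pow_le_of_le s (h2' 0)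
    rw [mul_comm] at h; omega)) b y hy
  obtain ⟨u, rfl⟩ := hy
  refine two_dvd h2 ⟨u * c + u ^ 2 * K + p ^ (b + 1) * u ^ 3 * K', ?_⟩
  rw [one_mul] at e
  rw [e]; push_cast at hc ⊢
  linear_combination (p ^ (b + 1) * u : ℤ_[p]) * hc

lemma caseC {t s b : ℕ} (h2 : p ≠ 2) (hs : Odd s) (s3 : 3 ≤ s) {y : ℕ} (hy : p ^ b ∣ y) :
    (p : ℤ_[p]) ^ (2 * b) ∣ G p (p ^ (t + 1)) s (p ^ (t + 1) * y) := by
  have hr : Odd (p ^ (t + 1)) := (hp.out.odd_of_ne_two h2).pow
  choose A h1 h2' h3 using exA (p := p) (t + 1) _ (Nat.pow_lt_pow_right hp.out.one_lt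
    (Nat.lt_add_one _))
  obtain ⟨Γ, hΓ⟩ : C (p : ℤ_[p]) ∣ ∑ z ∈ range (p ^ (t + 1)), A z ^ s := by
    have : C (p : ℤ_[p]) ∣ ∑ z ∈ range (p ^ (t + 1)), (A z ^ s - X ^ s) :=
      dvd_sum fun z hz => (h3 z hr rfl (mem_range.1 hz)).trans (sub_dvd_pow_sub_pow _ _ _)
    rw [sum_sub_distrib, sum_const, card_range, nsmul_eq_mul] at this
    refine (dvd_sub_left ?_).1 this
    exact Dvd.intro ((p : ℤ_[p][X]) ^ t * X ^ s) (by simp; ring)
  obtain ⟨K, K', e⟩ := main (q := p ^ (t + 1)) hr hs s3 (by simpa using h1) hΓ y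
  obtain ⟨c, hc⟩ := sum1 (derivative Γ) b y hy
  obtain ⟨u, rfl⟩ := hy
  refine two_dvd h2 ⟨u * c + p * u ^ 2 * K + p ^ b * u ^ 3 * K', ?_⟩
  rw [e]; push_cast at hc ⊢
  linear_combination (p ^ b * u : ℤ_[p]) * hc

lemma caseD {s : ℕ} (h2 : p ≠ 2) (hs : Odd s) (s1 : p ≤ s) (s2 : s < 2 * p) {y : ℕ} :
    (p : ℤ_[p]) ∣ G p p s (p * y) ∧
    ∀ b, p ^ (b + 1) ∣ y → (p : ℤ_[p]) ^ (2 * (b + 1) + 1) ∣ G p p s (p * y) := by
  have hr : Odd p := hp.out.odd_of_ne_two h2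
  have p3 : 3 ≤ p := by have := hp.out.two_le; omega
  have p0 : (p : ℤ_[p]) ≠ 0 := Nat.cast_ne_zero.2 (by omega)
  choose A h1 h2' h3 using exA (p := p) 1 p (by rw [show p ^ (1 + 1) = p * p by ring]; nlinarith)
  simp only [pow_one] at h1 h3
  choose! E hE using fun z hz => h3 z hr trivial hz
  replace hE : ∀ z < p, A z = X + C (p : ℤ_[p]) * E z := fun z hz => by
    linear_combination hE z hz
  have hT : ∑ z ∈ range p, E z = X + C (p : ℤ_[p]) *
      (X * (E 0).comp (X + 1) - (X - 1) * E 0 - X - ∑ z ∈ range p, E z) := by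
    refine eq_of_infinite_eval_eq _ _ (Set.infinite_of_injective_forall_mem
      (f := (Int.cast : ℤ → ℤ_[p])) Int.cast_injective fun x => ?_)
    have a := ch_sum (p := p) (p * x) p p
    have b := ch_succ (p := p) (p * x) p
    have c := ch_succ (p := p) (p + p * x) p
    have d := h1 0 x
    have e := h1 0 (x + 1)
    rw [sum_congr rfl fun z hz => (h1 z x).trans (by rw [hE z (mem_range.1 hz)])] at a
    rw [hE 0 (by omega), Nat.cast_zero, zero_add] at d e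
    rw [show (p : ℤ) * (x + 1) = p + p * x by ring] at e
    rw [d] at b; rw [e] at c
    simp only [Set.mem_setOf_eq, eval_add, eval_mul, eval_C, eval_X, eval_sub, eval_comp, eval_one,
      sum_add_distrib, sum_const, card_range, nsmul_eq_mul, ← mul_sum, eval_finset_sum] at *
    push_cast at *
    refine mul_left_cancel₀ p0 ?_
    linear_combination (p + 1 : ℤ_[p]) * a + c - b
  obtain ⟨U, hU⟩ : ∃ U, ∑ z ∈ range p, E z = X + C (p : ℤ_[p]) * U := ⟨_, hT⟩
  obtain ⟨d, rfl⟩ : ∃ d, s = d + 1 := ⟨s - 1, by omega⟩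
  obtain ⟨V, hΓ⟩ : ∃ V, ∑ z ∈ range p, A z ^ (d + 1) =
      C (p : ℤ_[p]) * (C ((d : ℤ_[p]) + 2) * X ^ (d + 1) + C (p : ℤ_[p]) * V) := by
    refine ⟨((d : ℤ_[p][X]) + 1) * X ^ d * U +
      ∑ z ∈ range p, (powAddExpansion X (C (p : ℤ_[p]) * E z) (d + 1)).1 * E z ^ 2, ?_⟩
    rw [sum_congr rfl fun z hz => by
      rw [hE z (mem_range.1 hz), (powAddExpansion X (C (p : ℤ_[p]) * E z) (d + 1)).2]]
    simp only [sum_add_distrib, sum_const, card_range, nsmul_eq_mul, ← mul_sum, hU, mul_pow,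
      mul_left_comm _ (C (p : ℤ_[p]) ^ 2), Nat.add_sub_cancel]
    simp only [map_add, map_natCast, map_ofNat]
    push_cast; ring
  refine ⟨?_, fun b hy => ?_⟩
  · have := shift (s := d + 1) h1 y 0
    simp only [mul_zero, add_zero, hΓ, eval_mul, eval_C, ← mul_sum] at this
    exact Dvd.intro _ this.symm
  obtain ⟨K, K', e⟩ := main hr hs (by omega) h1 hΓ y
  obtain ⟨c, hc⟩ := sum2 h2 (derivative (C ((d : ℤ_[p]) + 2) * X ^ (d + 1) + C (p : ℤ_[p]) * V)) (by
    simp only [derivative_add, derivative_C_mul, derivative_X_pow_succ, eval_add, eval_mul, eval_C,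
      eval_pow, eval_X, sum_add_distrib, ← mul_sum]
    refine dvd_add ?_ (Dvd.intro _ rfl)
    by_cases c1 : d + 1 = p
    · exact ((dvd_of_eq (by exact_mod_cast c1.symm)).mul_right _).mul_left _
    by_cases c2 : d + 2 = 2 * p
    · exact (Dvd.intro_left 2 (by exact_mod_cast c2.symm)).mul_right _
    obtain ⟨g, rfl⟩ : ∃ g, d = g + p := ⟨d - p, by omega⟩
    refine (((dvd_sub_left (powsum (e := g + 1) (by omega))).1 ?_).mul_left _).mul_left _
    rw [← sum_sub_distrib]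
    refine dvd_sum fun x _ => ?_
    have : (p : ℤ) ∣ (x : ℤ) ^ p - x := (ZMod.intCast_zmod_eq_zero_iff_dvd _ p).1 (by simp)
    have := map_dvd (Int.castRingHom ℤ_[p]) this
    simp only [eq_intCast] at this
    push_cast at this
    rw [pow_add, pow_succ, ← mul_sub]
    exact this.mul_left _) b y hy
  obtain ⟨u, rfl⟩ := hy
  refine two_dvd h2 ⟨u * c + u ^ 2 * K + p ^ b * u ^ 3 * K', ?_⟩
  rw [e]; push_cast at hc ⊢
  linear_combination (p ^ (b + 2) * u : ℤ_[p]) * hc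

lemma vC {r s i j e : ℕ} (hij : i ≠ j) (hi : 1 ≤ i) (hj : 1 ≤ j)
    (he : e + s * (r / p ^ i) + s * (r / p ^ j) ≤ (r * s + 1) / p ^ i + (r * s + 1) / p ^ j)
    (hs : 1 ≤ s) : p ^ e ∣ (r * s + 1).factorial / r.factorial ^ s := by
  have d : r.factorial ^ s ∣ (r * s + 1).factorial := by
    have := Nat.prod_factorial_dvd_factorial_sum (range s) fun _ => r
    rw [prod_const, sum_const, card_range, smul_eq_mul, mul_comm] at this
    exact this.trans (Nat.factorial_dvd_factorial (by omega))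
  rw [hp.out.pow_dvd_iff_le_factorization (Nat.div_ne_zero_iff_of_dvd d |>.2
    ⟨Nat.factorial_ne_zero _, by positivity⟩), Nat.factorization_div d, Nat.factorization_pow]
  have l : Nat.log p r ≤ Nat.log p (r * s + 1) := Nat.log_mono_right (by nlinarith)
  simp only [Finsupp.tsub_apply, Finsupp.smul_apply, smul_eq_mul]
  rw [Nat.factorization_factorial hp.out (b := Nat.log p (r * s + 1) + i + j + 1) (by omega),
    Nat.factorization_factorial hp.out (b := Nat.log p (r * s + 1) + i + j + 1) (by omega), mul_sum]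
  have k : ∀ i, s * (r / p ^ i) ≤ (r * s + 1) / p ^ i := fun i =>
    (Nat.mul_div_le_mul_div_assoc _ _ _).trans (Nat.div_le_div_right (by nlinarith))
  rw [← sum_tsub_distrib _ fun i _ => k i]
  refine le_trans ?_ (sum_le_sum_of_subset (s := {i, j}) (by
    intro x; simp only [mem_insert, mem_singleton, mem_Ico]; omega))
  rw [sum_pair hij]
  have := k i; have := k j; omega

end Pool.Agent.H.MP_32607b_nt
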